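import Pool.Agent.W443.DX.Stm4

set_option autoImplicit false

open MvPolynomial Pool.Agent.H88R2.DC Pool.Agent.W443.DX

namespace Pool.Agent.W963.DX

theorem aux (p a x y : ℕ) (hx : x < p) (hy : y < p) (hle : y ≤ p * a + x)
    (hd : p ∣ p * a + x - y) : x = y := by
  obtain ⟨c, hc⟩ := hd
  have h1 : p * a + x = p * c + y := by omega
  have h2 : (p * a + x) % p = x := by rw [Nat.mul_add_mod, Nat.mod_eq_of_lt hx]
  have h3 : (p * c + y) % p = y := by rw [Nat.mul_add_mod, Nat.mod_eq_of_lt hy]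
  rw [← h2, h1, h3]

/-- independence of the small monomials over `k[X ^ p, Y ^ p]` -/
theorem indep (p : ℕ) [Fact p.Prime] (k : Type) [Field k]
    (G : Fin 3 × Fin p × Fin p → MvPolynomial (Fin 2) k)
    (h : ∑ l, expand p (G l) * (X 0 ^ (l.2.1 : ℕ) * X 1 ^ (l.2.2 : ℕ)) = 0)
    (i0 j0 : Fin p) : ∑ t : Fin 3, G (t, i0, j0) = 0 := by
  classical
  have hp : p.Prime := Fact.out
  ext m
  rw [coeff_zero, coeff_sum]
  have h1 := congrArg (coeff (p • m + (Finsupp.single 0 (i0 : ℕ) + Finsupp.single 1 (j0 : ℕ)))) h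
  rw [coeff_zero, coeff_sum, Fintype.sum_prod_type] at h1
  rw [← h1]
  refine Finset.sum_congr rfl fun t _ => ?_
  have hmon : ∀ i j : ℕ, (X 0 ^ i * X 1 ^ j : MvPolynomial (Fin 2) k) =
      monomial (Finsupp.single 0 i + Finsupp.single 1 j) 1 := by
    intro i j
    rw [X_pow_eq_monomial, X_pow_eq_monomial, monomial_mul, one_mul]
  rw [Finset.sum_eq_single (i0, j0)]
  · rw [hmon, coeff_mul_monomial, mul_one, coeff_expand_smul _ hp.ne_zero]
  · rintro ⟨i, j⟩ _ hne
    simp only [hmon]
    rw [coeff_mul_monomial', mul_one]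
    split_ifs with hle
    · have hi := i.2
      have hj := j.2
      have hi0 := i0.2
      have hj0 := j0.2
      by_cases hii : i = i0
      · have hjj : (j : ℕ) ≠ (j0 : ℕ) := by
          intro hjj
          exact hne (by rw [hii, Fin.ext hjj])
        apply coeff_expand_of_not_dvd (i := 1)
        intro hd
        have e1 := hle 1
        simp at e1 hd
        exact hjj (aux p (m 1) j0 j hj0 hj e1 hd).symm
      · have hii' : (i : ℕ) ≠ (i0 : ℕ) := fun h' => hii (Fin.ext h')
        apply coeff_expand_of_not_dvd (i := 0)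
        intro hd
        have e1 := hle 0
        simp at e1 hd
        exact hii' (aux p (m 0) i0 i hi0 hi e1 hd).symm
    · rfl
  · intro h'
    exact absurd (Finset.mem_univ _) h'

theorem dep (h1 : S_RNP) (h2 : S_LFT) (h3 : S_EVX) (h4 : S_CEN) (h5 : S_NZD) : S_DEP := by
  intro p _ k _ _ P Q u f g hPQ hP hQ hind hden a b c
  classical
  have hp : p.Prime := Fact.out
  obtain ⟨φ, hφ⟩ := h2 k (W k) P Q hPQ
  have hcc : ∀ H : MvPolynomial (Fin 2) k,
      nf k (expand p (aeval ![f, g] H)) = φ (nf k (expand p H)) := by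
    intro H
    rw [hφ, h3 p k P Q f g H hP hQ]
  -- the elements
  let w : Fin 3 × Fin p × Fin p → W k := fun l =>
    nf k (expand p ((![a, b, c] : Fin 3 → MvPolynomial (Fin 2) k) l.1) *
      (X 0 ^ (l.2.1 : ℕ) * X 1 ^ (l.2.2 : ℕ)))
  choose z A B hz hw using fun l => hden (w l)
  let Zh : Fin 3 × Fin p × Fin p → MvPolynomial (Fin 2) k := fun l =>
    ∏ l' ∈ Finset.univ.erase l, z l'
  let Z : MvPolynomial (Fin 2) k := ∏ l', z l'
  have hZ0 : Z ≠ 0 := Finset.prod_ne_zero_iff.2 fun l _ => hz l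
  have hZZ : ∀ l, Z = Zh l * z l := fun l =>
    (Finset.prod_erase_mul Finset.univ z (Finset.mem_univ l)).symm
  -- multiplication by central elements
  have hmul : ∀ H F : MvPolynomial (Fin 2) k,
      nf k (expand p H) * nf k F = nf k (expand p H * F) := fun H F => (h4 p k H F).1
  have hcomm : ∀ (H : MvPolynomial (Fin 2) k) (y : W k),
      y * nf k (expand p H) = nf k (expand p H) * y := by
    intro H y
    obtain ⟨F, rfl⟩ := (nf k).surjective y
    rw [(h4 p k H F).1, (h4 p k H F).2]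
  have hcmul : ∀ H H' : MvPolynomial (Fin 2) k,
      nf k (expand p (aeval ![f, g] (H * H'))) =
        nf k (expand p (aeval ![f, g] H)) * nf k (expand p (aeval ![f, g] H')) := by
    intro H H'
    rw [hmul, ← map_mul, ← map_mul]
  have hφm : ∀ H F : MvPolynomial (Fin 2) k,
      φ (nf k (expand p H)) * φ (nf k F) = φ (nf k (expand p H * F)) := by
    intro H F
    rw [← map_mul φ, hmul]
  have hZw : ∀ l, nf k (expand p (aeval ![f, g] Z)) * w l =
      φ (nf k (expand p (Zh l) * A l)) + φ (nf k (expand p (Zh l) * B l)) * u := by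
    intro l
    rw [hZZ l, hcmul, mul_assoc, hw l, ← hφ, ← hφ, hcc, mul_add, ← mul_assoc, hφm, hφm]
  obtain ⟨H, hH0, hHA, hHB⟩ := h1 p k (fun l => expand p (Zh l) * A l)
    (fun l => expand p (Zh l) * B l)
  have hsum1 : ∑ l, nf k (expand p (aeval ![f, g] (H l))) *
      (nf k (expand p (aeval ![f, g] Z)) * w l) = 0 := by
    have e1 : ∀ l, nf k (expand p (aeval ![f, g] (H l))) *
        (nf k (expand p (aeval ![f, g] Z)) * w l) =
        φ (nf k (expand p (H l) * (expand p (Zh l) * A l))) +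
          φ (nf k (expand p (H l) * (expand p (Zh l) * B l))) * u := by
      intro l
      rw [hZw l, hcc, mul_add, ← mul_assoc, hφm, hφm]
    rw [Finset.sum_congr rfl fun l _ => e1 l, Finset.sum_add_distrib, ← Finset.sum_mul,
      ← map_sum, ← map_sum, ← map_sum, ← map_sum, hHA, hHB]
    simp
  have hsum2 : nf k (expand p (aeval ![f, g] Z)) *
      ∑ l, nf k (expand p (aeval ![f, g] (H l))) * w l = 0 := by
    rw [← hsum1, Finset.mul_sum]
    refine Finset.sum_congr rfl fun l _ => ?_
    rw [← mul_assoc, ← mul_assoc, hcomm]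
  rcases h5 k _ _ hsum2 with h6 | h6
  · exfalso
    have e1 : expand p (aeval ![f, g] Z) = 0 := by
      have := (nf k).map_eq_zero_iff.1 h6
      exact this
    have e2 : aeval ![f, g] Z = 0 := by
      exact (expand_eq_zero hp.pos).1 e1
    exact hZ0 (hind Z e2)
  · have h7 : ∑ l, expand p (aeval ![f, g] (H l) *
        (![a, b, c] : Fin 3 → MvPolynomial (Fin 2) k) l.1) *
          (X 0 ^ (l.2.1 : ℕ) * X 1 ^ (l.2.2 : ℕ)) = 0 := by
      apply (nf k).map_eq_zero_iff.1
      rw [map_sum, ← h6]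
      refine Finset.sum_congr rfl fun l _ => ?_
      show _ = nf k (expand p (aeval ![f, g] (H l))) *
        nf k (expand p ((![a, b, c] : Fin 3 → MvPolynomial (Fin 2) k) l.1) *
          (X 0 ^ (l.2.1 : ℕ) * X 1 ^ (l.2.2 : ℕ)))
      rw [hmul, map_mul (expand p), mul_assoc]
    obtain ⟨⟨t0, i0, j0⟩, hl0⟩ : ∃ l, H l ≠ 0 := by
      by_contra hcon
      push Not at hcon
      exact hH0 (funext hcon)
    have h8 := indep p k (fun l => aeval ![f, g] (H l) *
        (![a, b, c] : Fin 3 → MvPolynomial (Fin 2) k) l.1) h7 i0 j0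
    rw [Fin.sum_univ_three] at h8
    refine ⟨H (0, i0, j0), H (1, i0, j0), H (2, i0, j0), ?_, h8⟩
    rintro ⟨e0, e1, e2⟩
    fin_cases t0
    · exact hl0 e0
    · exact hl0 e1
    · exact hl0 e2

end Pool.Agent.W963.DX
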